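import Pool.Agent.helper48.EXI.Spec1

/-!
# Block EXI of project NPT (MP_8f32d0_ag), row PNT: a nontrivial point with values in `k[[X]]`
-/

set_option autoImplicit false

namespace EXI

open scoped Classical
open AN

noncomputable section

theorem PNT_span {k : Type} [Field k] {N : ℕ} (b : BB k N) (hb : MvPowerSeries.constantCoeff b = 0) :
    ∃ c : Fin N → BB k N, b = ∑ i, (MvPowerSeries.X i : BB k N) * c i := by
  let c : Fin N → BB k N := fun i => (fun β : Fin N →₀ ℕ =>
    if ∀ j < i, β j = 0 then MvPowerSeries.coeff (β + Finsupp.single i 1) b else 0)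
  refine ⟨c, ?_⟩
  ext α
  rw [map_sum]
  have h1 : ∀ i, MvPowerSeries.coeff α ((MvPowerSeries.X i : BB k N) * c i) =
      if α i ≠ 0 ∧ ∀ j < i, α j = 0 then MvPowerSeries.coeff α b else 0 := by
    intro i
    have hX : (MvPowerSeries.X i : BB k N) = MvPowerSeries.monomial (Finsupp.single i 1) 1 := rfl
    rw [hX, MvPowerSeries.coeff_monomial_mul]
    by_cases h : Finsupp.single i 1 ≤ α
    · have hi : α i ≠ 0 := by
        have := h i
        rw [Finsupp.single_eq_same] at this
        omega
      have hc : MvPowerSeries.coeff (α - Finsupp.single i 1 : Fin N →₀ ℕ) (c i) =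
          if ∀ j < i, (α - Finsupp.single i 1 : Fin N →₀ ℕ) j = 0 then MvPowerSeries.coeff (α - Finsupp.single i 1 + Finsupp.single i 1) b else 0 := rfl
      rw [if_pos h, one_mul, hc, tsub_add_cancel_of_le h]
      have hiff : (∀ j < i, (α - Finsupp.single i 1 : Fin N →₀ ℕ) j = 0) ↔ (α i ≠ 0 ∧ ∀ j < i, α j = 0) := by
        constructor
        · intro h2
          refine ⟨hi, fun j hj => ?_⟩
          have h3 := h2 j hj
          rw [Finsupp.tsub_apply, Finsupp.single_eq_of_ne (ne_of_lt hj)] at h3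
          exact h3
        · rintro ⟨_, h2⟩ j hj
          rw [Finsupp.tsub_apply, Finsupp.single_eq_of_ne (ne_of_lt hj), h2 j hj]
          rfl
      by_cases h4 : α i ≠ 0 ∧ ∀ j < i, α j = 0
      · rw [if_pos h4, if_pos (hiff.2 h4)]
      · rw [if_neg h4, if_neg (fun h5 => h4 (hiff.1 h5))]
    · rw [if_neg h, if_neg]
      rintro ⟨h2, _⟩
      apply h
      intro j
      by_cases hj : j = i
      · rw [hj, Finsupp.single_eq_same]
        omega
      · rw [Finsupp.single_eq_of_ne hj]
        exact Nat.zero_le _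
  rw [Finset.sum_congr rfl fun i _ => h1 i]
  by_cases hα : α = 0
  · rw [hα]
    rw [Finset.sum_eq_zero]
    · rw [MvPowerSeries.coeff_zero_eq_constantCoeff_apply]
      exact hb
    · intro i _
      rw [if_neg]
      rintro ⟨h2, _⟩
      exact h2 rfl
  · have hex : ∃ i, α i ≠ 0 := by
      by_contra hcon
      push Not at hcon
      exact hα (Finsupp.ext hcon)
    obtain ⟨i0, hi0, hmin⟩ := WellFounded.has_min (wellFounded_lt (α := Fin N)) {i | α i ≠ 0} hex
    have hmin' : ∀ j < i0, α j = 0 := by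
      intro j hj
      by_contra hcon
      exact hmin j hcon hj
    rw [Finset.sum_eq_single i0]
    · rw [if_pos ⟨hi0, hmin'⟩]
    · intro i _ hne
      rw [if_neg]
      rintro ⟨h2, h3⟩
      rcases lt_or_gt_of_ne hne with h4 | h4
      · exact h2 (hmin' i h4)
      · exact hi0 (h3 i0 h4)
    · intro h2
      exact absurd (Finset.mem_univ _) h2

theorem PNT (hPO : PO_stmt) : PNT_stmt := by
  intro k _ _ N n q hq hC
  obtain ⟨φ, hφ, _⟩ := id hC
  obtain ⟨μ, hμ⟩ := Ideal.Quotient.mk_surjective (φ (MvPowerSeries.X 0))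
  have hX : (MvPowerSeries.X 0 : BB k (n + 1)) ≠ 0 := by
    intro h
    have h2 := congrArg (MvPowerSeries.coeff (Finsupp.single 0 1)) h
    rw [MvPowerSeries.coeff_index_single_self_X, map_zero] at h2
    exact one_ne_zero h2
  have hμq : μ ∉ q := by
    intro h
    rw [Ideal.Quotient.eq_zero_iff_mem.2 h] at hμ
    exact hX (hφ (by rw [map_zero]; exact hμ.symm))
  obtain ⟨Φ, hΦq, hΦμ, hΦc⟩ := hPO k N (n + 1) q hq hC μ hμq
  refine ⟨Φ, hΦq, ?_⟩
  by_contra hcon
  push Not at hcon
  have hval : ∀ b : BB k N, Φ b = algebraMap k (PowerSeries k) (MvPowerSeries.constantCoeff b) := by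
    intro b
    have h0 : MvPowerSeries.constantCoeff (b - algebraMap k (BB k N) (MvPowerSeries.constantCoeff b)) = 0 := by
      rw [map_sub, MvPowerSeries.algebraMap_apply, MvPowerSeries.constantCoeff_C]
      exact sub_self _
    obtain ⟨c, hc⟩ := PNT_span _ h0
    have h1 : Φ (b - algebraMap k (BB k N) (MvPowerSeries.constantCoeff b)) = 0 := by
      rw [hc, map_sum]
      refine Finset.sum_eq_zero fun i _ => ?_
      rw [map_mul, hcon i, zero_mul]
    rw [map_sub, AlgHom.commutes, sub_eq_zero] at h1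
    exact h1
  set a : k := MvPowerSeries.constantCoeff μ with ha
  have ha0 : a ≠ 0 := by
    intro h
    apply hΦμ
    rw [hval μ, ← ha, h, map_zero]
  have hu : IsUnit ((MvPowerSeries.X 0 : BB k (n + 1)) - algebraMap k (BB k (n + 1)) a) := by
    rw [MvPowerSeries.isUnit_iff_constantCoeff]
    rw [map_sub, MvPowerSeries.constantCoeff_X, MvPowerSeries.algebraMap_apply, MvPowerSeries.constantCoeff_C, zero_sub]
    exact (neg_ne_zero.2 ha0).isUnit
  have hu2 := hu.map φ
  have hφu : φ ((MvPowerSeries.X 0 : BB k (n + 1)) - algebraMap k (BB k (n + 1)) a) = Ideal.Quotient.mk q (μ - algebraMap k (BB k N) a) := by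
    rw [map_sub, AlgHom.commutes, ← hμ, map_sub]
    rfl
  rw [hφu] at hu2
  have hu3 := hu2.map (Ideal.Quotient.lift q (Φ : BB k N →+* PowerSeries k) hΦq)
  rw [Ideal.Quotient.lift_mk] at hu3
  have h5 : (Φ : BB k N →+* PowerSeries k) (μ - algebraMap k (BB k N) a) = 0 := by
    show Φ (μ - algebraMap k (BB k N) a) = 0
    rw [map_sub, AlgHom.commutes, hval μ, ← ha, sub_self]
  rw [h5] at hu3
  exact not_isUnit_zero hu3

end

end EXI
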